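import Pool.Agent.Zk29.Po.D
import Pool.Agent.H713R5.QJ.TKO0

/-!
# Trapping neighbourhoods of polynomials
-/

set_option autoImplicit false
open Set Filter Topology Metric Polynomial

namespace Pool.Agent.Zk85.Po

open Pool.Agent.H792R2.CE Pool.Agent.Zk29.Rat Pool.Agent.Zk29.Po
open Pool.Agent.H713R5.QJ

lemma ev_diff (T : ℂ[X]) : Differentiable ℂ (ev T) := T.differentiable

lemma good_step {T : ℂ[X]} {x : ℂ} (h : Good (ev T) (ev T x)) : Good (ev T) x := by
  rcases h with h | ⟨P, hP, z, hz⟩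
  · left
    rw [← tendsto_add_atTop_iff_nat 1]
    exact h
  · right
    exact ⟨P, hP, _, KO0.sk_back (ev T) P (ev_diff T) hP x z hz⟩

lemma good_of_iter {T : ℂ[X]} {x : ℂ} (n : ℕ) (h : Good (ev T) ((ev T)^[n] x)) : Good (ev T) x := by
  induction n generalizing x with
  | zero => exact h
  | succ n ih =>
    rw [Function.iterate_succ_apply] at h
    exact good_step (ih h)

/-- A trapping neighbourhood of an attracting cycle. -/
theorem trap_cycle (T : ℂ[X]) {n : ℕ} (hn : 0 < n) {z : ℂ} (hGz : (ev T)^[n] z = z)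
    (hder : ‖deriv ((ev T)^[n]) z‖ < 1) :
    ∃ V : Set ℂ, IsOpen V ∧ z ∈ V ∧ (∀ x ∈ closure V, ev T x ∈ V) ∧ ∀ x ∈ V, Good (ev T) x := by
  have hdf := ev_diff T
  have hcont : Continuous (ev T) := hdf.continuous
  have hd : HasDerivAt ((ev T)^[n]) (deriv ((ev T)^[n]) z) z :=
    ((hdf.iterate n) z).hasDerivAt
  obtain ⟨lam, hlam1, hlam2⟩ := exists_between hder
  have hlam0 : 0 ≤ lam := (norm_nonneg _).trans hlam1.le
  have ev1 : ∀ᶠ w in 𝓝 z, ‖(ev T)^[n] w - z‖ ≤ lam * ‖w - z‖ := by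
    have h1 := (hasDerivAt_iff_isLittleO.1 hd).bound
      (show 0 < lam - ‖deriv ((ev T)^[n]) z‖ by linarith)
    filter_upwards [h1] with w hw
    rw [hGz] at hw
    have h2 : ‖(ev T)^[n] w - z‖ ≤ ‖(ev T)^[n] w - z - (w - z) • deriv ((ev T)^[n]) z‖ +
        ‖(w - z) • deriv ((ev T)^[n]) z‖ := by
      refine le_trans (le_of_eq ?_) (norm_add_le _ _)
      congr 1
      ring
    rw [norm_smul] at h2
    calc ‖(ev T)^[n] w - z‖ ≤ (lam - ‖deriv ((ev T)^[n]) z‖) * ‖w - z‖ +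
          ‖w - z‖ * ‖deriv ((ev T)^[n]) z‖ := h2.trans (add_le_add hw le_rfl)
      _ = lam * ‖w - z‖ := by ring
  obtain ⟨ρ', hρ', hball'⟩ := Metric.mem_nhds_iff.1 ev1
  obtain ⟨ρ, hρ, hball⟩ : ∃ ρ : ℝ, 0 < ρ ∧ ∀ w, ‖w - z‖ ≤ ρ →
      ‖(ev T)^[n] w - z‖ ≤ lam * ‖w - z‖ := by
    refine ⟨ρ' / 2, by positivity, fun w hw => hball' ?_⟩
    rw [mem_ball, dist_eq_norm]
    linarith
  -- the points of the disc are attracted
  have hk : ∀ w, ‖w - z‖ ≤ ρ → ∀ k : ℕ, ‖((ev T)^[n])^[k] w - z‖ ≤ ρ ∧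
      ‖((ev T)^[n])^[k] w - z‖ ≤ lam ^ k * ‖w - z‖ := by
    intro w hw k
    induction k with
    | zero => exact ⟨hw, by simp⟩
    | succ k ih =>
      obtain ⟨i1, i2⟩ := ih
      rw [Function.iterate_succ_apply']
      refine ⟨?_, ?_⟩
      · refine (hball _ i1).trans ?_
        nlinarith [norm_nonneg (((ev T)^[n])^[k] w - z)]
      · calc ‖(ev T)^[n] (((ev T)^[n])^[k] w) - z‖ ≤ lam * ‖((ev T)^[n])^[k] w - z‖ :=
              hball _ i1
          _ ≤ lam * (lam ^ k * ‖w - z‖) := mul_le_mul_of_nonneg_left i2 hlam0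
          _ = lam ^ (k + 1) * ‖w - z‖ := by ring
  have hatt : ∀ w, ‖w - z‖ ≤ ρ → Good (ev T) w := by
    intro w hw
    right
    refine ⟨n, hn, z, hGz, hder, ?_⟩
    have h1 : Tendsto (fun k : ℕ => ((ev T)^[n])^[k] w) atTop (𝓝 z) := by
      rw [tendsto_iff_norm_sub_tendsto_zero]
      have h0 : Tendsto (fun k : ℕ => lam ^ k * ‖w - z‖) atTop (𝓝 0) := by
        simpa using (tendsto_pow_atTop_nhds_zero_of_lt_one hlam0 hlam2).mul_const ‖w - z‖
      exact squeeze_zero (fun k => norm_nonneg _) (fun k => (hk w hw k).2) h0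
    refine h1.congr fun k => ?_
    rw [Function.iterate_mul]
  -- the radii
  have hn0 : (0 : ℝ) < n := by exact_mod_cast hn
  obtain ⟨R, hR⟩ : ∃ R : ℕ → ℝ, R = fun j : ℕ => ρ * (1 - (1 - lam) * (j / n)) := ⟨_, rfl⟩
  have hR0 : R 0 = ρ := by rw [hR]; simp
  have hRle : ∀ j, R j ≤ ρ := by
    intro j
    rw [hR]
    have : 0 ≤ (1 - lam) * (j / n) := by
      have : 0 ≤ 1 - lam := by linarith
      positivity
    simp only
    nlinarith
  have hRs : ∀ j, R (j + 1) < R j := by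
    intro j
    rw [hR]
    simp only
    have h1 : ((j : ℕ) : ℝ) / n < ((j + 1 : ℕ) : ℝ) / n := by
      push_cast
      gcongr
      linarith
    have h2 : 0 < 1 - lam := by linarith
    have h3 : (1 - lam) * (((j : ℕ) : ℝ) / n) < (1 - lam) * (((j + 1 : ℕ) : ℝ) / n) := by gcongr
    nlinarith
  have hRl : ∀ j, j < n → lam * ρ < R j := by
    intro j hj
    rw [hR]
    simp only
    have h1 : ((j : ℕ) : ℝ) / n < 1 := by
      rw [div_lt_one hn0]
      exact_mod_cast hj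
    have h2 : 0 < 1 - lam := by linarith
    have h3 : (1 - lam) * (((j : ℕ) : ℝ) / n) < (1 - lam) * 1 := by gcongr
    nlinarith
  have hRpos : ∀ j, j < n → 0 < R j := fun j hj => lt_of_le_of_lt (by positivity) (hRl j hj)
  refine ⟨⋃ j ∈ Finset.range n, (ev T)^[j] ⁻¹' ball z (R j), ?_, ?_, ?_, ?_⟩
  · exact isOpen_biUnion fun j _ => isOpen_ball.preimage (hcont.iterate j)
  · rw [mem_iUnion₂]
    exact ⟨0, Finset.mem_range.2 hn, mem_ball_self (hRpos 0 hn)⟩
  · intro x hx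
    have h1 : closure (⋃ j ∈ Finset.range n, (ev T)^[j] ⁻¹' ball z (R j)) =
        ⋃ j ∈ Finset.range n, closure ((ev T)^[j] ⁻¹' ball z (R j)) :=
      (Finset.range n).closure_biUnion _
    rw [h1, mem_iUnion₂] at hx
    obtain ⟨j, hj, hx⟩ := hx
    rw [Finset.mem_range] at hj
    have h2 : (ev T)^[j] x ∈ closure (ball z (R j)) :=
      (hcont.iterate j).closure_preimage_subset (ball z (R j)) hx
    have hw := closure_ball_subset_closedBall h2
    rw [mem_closedBall, dist_eq_norm] at hw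
    rw [mem_iUnion₂]
    rcases j with _ | j
    · refine ⟨n - 1, Finset.mem_range.2 (by omega), ?_⟩
      rw [mem_preimage, ← Function.iterate_succ_apply, show (n - 1).succ = n by omega]
      rw [hR0, Function.iterate_zero, id] at hw
      rw [mem_ball, dist_eq_norm]
      refine lt_of_le_of_lt (hball x hw) (lt_of_le_of_lt ?_ (hRl (n - 1) (by omega)))
      gcongr
    · refine ⟨j, Finset.mem_range.2 (by omega), ?_⟩
      rw [mem_preimage, ← Function.iterate_succ_apply, mem_ball, dist_eq_norm]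
      exact lt_of_le_of_lt hw (hRs j)
  · intro x hx
    rw [mem_iUnion₂] at hx
    obtain ⟨j, hj, hx⟩ := hx
    rw [mem_preimage, mem_ball, dist_eq_norm] at hx
    exact good_of_iter j (hatt _ (hx.le.trans (hRle j)))

/-- The trap at infinity. -/
theorem trap_infty (T : ℂ[X]) (hd : 2 ≤ T.natDegree) : ∃ R : ℝ, 1 ≤ R ∧
    (∀ w : ℂ, R ≤ ‖w‖ → 2 * ‖w‖ ≤ ‖ev T w‖) ∧
    ∀ (x : ℂ) (k : ℕ), R ≤ ‖(ev T)^[k] x‖ → Good (ev T) x := by
  have hlead : 0 < ‖T.coeff T.natDegree‖ := by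
    rw [norm_pos_iff, Polynomial.coeff_natDegree, Polynomial.leadingCoeff_ne_zero]
    intro h0
    rw [h0, natDegree_zero] at hd
    omega
  set c := ‖T.coeff T.natDegree‖ with hc
  set B := ∑ j ∈ Finset.range T.natDegree, ‖T.coeff j‖ with hB
  set R := max 1 ((B + 2) / c) with hRdef
  have hR1 : 1 ≤ R := le_max_left _ _
  have hR2 : B + 2 ≤ c * R := by
    have h1 : (B + 2) / c ≤ R := le_max_right _ _
    rw [div_le_iff₀ hlead] at h1
    linarith
  have hg : ∀ w : ℂ, R ≤ ‖w‖ → 2 * ‖w‖ ≤ ‖ev T w‖ := fun w hw =>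
    opg_growth T hd (c := c) (B := B) le_rfl le_rfl hR1 hR2 hlead hw
  refine ⟨R, hR1, hg, fun x k hk => Or.inl ?_⟩
  exact opg_escape hR1 hg hk

theorem trap : S_TRAP := by
  intro T hd N hN hNb hKN
  classical
  have hdf := ev_diff T
  have hcont : Continuous (ev T) := hdf.continuous
  obtain ⟨R, hR1, hRg, hRe⟩ := trap_infty T hd
  obtain ⟨Y, hY⟩ : ∃ Y : Set ℂ, Y = Nᶜ ∩ closedBall 0 R := ⟨_, rfl⟩
  have hYc : IsCompact Y := by
    rw [hY]
    exact (isCompact_closedBall (0 : ℂ) R).inter_left hN.isClosed_compl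
  have hYg : ∀ x ∈ Y, Good (ev T) x := by
    intro x hx
    by_contra h
    rw [hY] at hx
    exact hx.1 (hKN x h)
  have hIo : IsOpen {w : ℂ | R < ‖w‖} := isOpen_lt continuous_const continuous_norm
  have hIc : ∀ x ∈ closure {w : ℂ | R < ‖w‖}, ev T x ∈ {w : ℂ | R < ‖w‖} := by
    intro x hx
    have h1 : x ∈ {w : ℂ | R ≤ ‖w‖} := by
      refine closure_minimal (fun w hw => ?_) (isClosed_le continuous_const continuous_norm) hx
      have hw' : R < ‖w‖ := hw
      exact hw'.le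
    have h2 := hRg x h1
    have h3 : R ≤ ‖x‖ := h1
    show R < ‖ev T x‖
    linarith
  have hIg : ∀ x ∈ {w : ℂ | R < ‖w‖}, Good (ev T) x := fun x hx => hRe x 0 (le_of_lt hx)
  have h1 : ∀ x ∈ Y, ∃ (V : Set ℂ) (m : ℕ), IsOpen V ∧ (ev T)^[m] x ∈ V ∧
      (∀ x ∈ closure V, ev T x ∈ V) ∧ ∀ x ∈ V, Good (ev T) x := by
    intro x hx
    rcases hYg x hx with h | ⟨n, hn, z, hper, hder, ht⟩
    · obtain ⟨k, hk⟩ := (h.eventually_gt_atTop R).exists
      exact ⟨_, k, hIo, hk, hIc, hIg⟩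
    · obtain ⟨V, hVo, hzV, hVc, hVa⟩ := trap_cycle T hn hper hder
      obtain ⟨k, hk⟩ := (ht.eventually (hVo.mem_nhds hzV)).exists
      exact ⟨V, n * k, hVo, hk, hVc, hVa⟩
  choose! V m hVo hVm hVc hVa using h1
  obtain ⟨s, hs⟩ := hYc.elim_nhds_subcover' (fun x _ => (ev T)^[m x] ⁻¹' V x)
    (fun x hx => ((hVo x hx).preimage (hcont.iterate (m x))).mem_nhds (hVm x hx))
  obtain ⟨VV, hVV⟩ : ∃ VV : Set ℂ, VV = {w : ℂ | R < ‖w‖} ∪ ⋃ x ∈ s, V (x : ℂ) := ⟨_, rfl⟩
  have hVVo : IsOpen VV := by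
    rw [hVV]
    exact hIo.union (isOpen_biUnion fun x _ => hVo x x.2)
  have hVVc : ∀ x ∈ closure VV, ev T x ∈ VV := by
    intro x hx
    rw [hVV, closure_union, s.closure_biUnion] at hx
    rw [hVV]
    rcases hx with hx | hx
    · exact Or.inl (hIc x hx)
    · right
      rw [mem_iUnion₂] at hx ⊢
      obtain ⟨y, hy, hx⟩ := hx
      exact ⟨y, hy, hVc y y.2 x hx⟩
  have hVVa : ∀ x ∈ VV, Good (ev T) x := by
    intro x hx
    rw [hVV] at hx
    rcases hx with hx | hx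
    · exact hIg x hx
    · rw [mem_iUnion₂] at hx
      obtain ⟨y, hy, hx⟩ := hx
      exact hVa y y.2 x hx
  have hfwd : ∀ k, ∀ x ∈ VV, (ev T)^[k] x ∈ VV := by
    intro k
    induction k with
    | zero => intro x hx; exact hx
    | succ k ih =>
      intro x hx
      rw [Function.iterate_succ_apply]
      exact ih _ (hVVc x (subset_closure hx))
  obtain ⟨M, hM⟩ : ∃ M : ℕ, ∀ x ∈ s, m (x : ℂ) ≤ M :=
    ⟨∑ x ∈ s, m (x : ℂ), fun x hx =>
      Finset.single_le_sum (f := fun x : Y => m (x : ℂ)) (fun _ _ => Nat.zero_le _) hx⟩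
  obtain ⟨Tt, hT⟩ : ∃ Tt : Set ℂ, Tt = (ev T)^[M] ⁻¹' VV := ⟨_, rfl⟩
  have hTo : IsOpen Tt := by rw [hT]; exact hVVo.preimage (hcont.iterate M)
  have hYT : Nᶜ ⊆ Tt := by
    intro x hx
    by_cases hxR : R < ‖x‖
    · rw [hT]
      exact hfwd M x (by rw [hVV]; exact Or.inl hxR)
    have hxY : x ∈ Y := by
      rw [hY]
      exact ⟨hx, by simpa using not_lt.1 hxR⟩
    have h2 := hs hxY
    rw [mem_iUnion₂] at h2
    obtain ⟨y, hy, h3⟩ := h2
    have h4 : (ev T)^[m (y : ℂ)] x ∈ VV := by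
      rw [hVV]
      right
      rw [mem_iUnion₂]
      exact ⟨y, hy, h3⟩
    have h5 := hfwd (M - m (y : ℂ)) _ h4
    rw [← Function.iterate_add_apply, Nat.sub_add_cancel (hM y hy)] at h5
    rw [hT]
    exact h5
  have hTc : ∀ x ∈ closure Tt, ev T x ∈ Tt := by
    intro x hx
    rw [hT] at hx ⊢
    have h2 := (hcont.iterate M).closure_preimage_subset VV hx
    have h3 := hVVc _ h2
    rw [mem_preimage, ← Function.iterate_succ_apply, Function.iterate_succ_apply']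
    exact h3
  have hTa : ∀ x ∈ closure Tt, Good (ev T) x := by
    intro x hx
    apply good_of_iter 1
    apply good_of_iter M
    apply hVVa
    have h2 := hTc x hx
    rw [hT] at h2
    exact h2
  obtain ⟨U, hU⟩ : ∃ U : Set ℂ, U = (closure Tt)ᶜ := ⟨_, rfl⟩
  have hUo : IsOpen U := by
    rw [hU]
    exact isClosed_closure.isOpen_compl
  have hUN : U ⊆ N := by
    intro w hw
    rw [hU] at hw
    by_contra h
    exact hw (subset_closure (hYT h))
  have hout : ∀ w : ℂ, w ∉ U → w ∈ closure Tt := by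
    intro w hw
    rw [hU] at hw
    by_contra h
    exact hw h
  refine ⟨U, ⟨isCoprime_one_right, hUo, hNb.subset hUN, ?_⟩, hUN, fun z hz => ?_, ?_⟩
  · intro w hw
    by_contra hwU
    have h2 := hTc _ (hout w hwU)
    have h3 : ∀ᶠ w' : ℂ in 𝓝 w, ev T w' ∈ Tt := hcont.continuousAt.eventually_mem (hTo.mem_nhds h2)
    rw [mem_closure_iff_frequently] at hw
    obtain ⟨w', h4, h5⟩ := (hw.and_eventually h3).exists
    have h6 := h4.2
    rw [rf_one', hU] at h6
    exact h6 (subset_closure h5)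
  · by_contra h
    exact hz (hTa _ (hout z h))
  · intro z hz hzU hr
    have h2 := hTc _ (hout z hzU)
    rw [rf_one'] at hr
    rw [mem_closure_iff_frequently] at hr
    obtain ⟨w, h4, h5⟩ := (hr.and_eventually (hTo.mem_nhds h2)).exists
    rw [hU] at h4
    exact h4 (subset_closure h5)

end Pool.Agent.Zk85.Po
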